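import Pool.Agent.R138.RelPoly

/-! # MP_1ae31d_co: the reliability roots of paving matroids lie in the closed unit disk -/

namespace Pool.Agent.Results.MP_1ae31d_co.PavingRoots

open Finset Pool.Agent.R138.Rel

variable {α : Type*}

/-- the number of independent sets of size `k` -/
noncomputable def numIndep (M : Matroid α) (k : ℕ) : ℕ := {I : Set α | M.Indep I ∧ I.ncard = k}.ncard

/-- the rank of a finite matroid -/
noncomputable def rank (M : Matroid α) : ℕ := M.eRank.toNat

/-- the reliability polynomial `∑_{k ≤ r} f_k q ^ k (1 - q) ^ (m - k)` -/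
noncomputable def relPoly (M : Matroid α) : Polynomial ℂ :=
  ∑ k ∈ range (rank M + 1), Polynomial.C (numIndep M k : ℂ) * Polynomial.X ^ k *
    (1 - Polynomial.X) ^ (M.E.ncard - k)

/-- every circuit has at least `r` elements, `r` the rank -/
def IsPaving (M : Matroid α) : Prop := ∀ C, M.IsCircuit C → rank M ≤ C.ncard

theorem indep_of_small {M : Matroid α} [M.Finite] (hM : IsPaving M) {A : Set α} (hA : A ⊆ M.E)
    (hc : A.ncard < rank M) : M.Indep A := by
  by_contra h
  obtain ⟨C, hCA, hC⟩ := Matroid.Dep.exists_isCircuit_subset (M := M) (X := A) ⟨h, hA⟩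
  have h1 := hM C hC
  have h2 := Set.ncard_le_ncard hCA (M.ground_finite.subset hA)
  omega

open Classical in
/-- the nonbases -/
noncomputable def nb (M : Matroid α) [M.Finite] : Finset (Finset α) :=
  (powersetCard (rank M) M.ground_finite.toFinset).filter (fun A => ¬ M.Indep (A : Set α))

open Classical in
theorem sys {M : Matroid α} [M.Finite] (hM : IsPaving M) :
    Sys M.ground_finite.toFinset (rank M) (nb M) where
  sub A hA := by
    rw [nb, mem_filter, mem_powersetCard] at hA
    exact hA.1.1
  card A hA := by
    rw [nb, mem_filter, mem_powersetCard] at hA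
    exact hA.1.2
  ex A hA B hB hU C hC hCr := by
    rw [nb, mem_filter, mem_powersetCard] at hA hB ⊢
    obtain ⟨⟨hAE, hAr⟩, hAd⟩ := hA
    obtain ⟨⟨hBE, hBr⟩, hBd⟩ := hB
    refine ⟨⟨hC.trans (union_subset hAE hBE), hCr⟩, fun hCi => ?_⟩
    have hJc : (A ∩ B).card + 1 = rank M := by
      have := card_union_add_card_inter A B
      omega
    have hJE : ((A ∩ B : Finset α) : Set α) ⊆ M.E := by
      intro x hx
      have h1 := hAE (mem_inter.1 (Finset.mem_coe.1 hx)).1
      exact M.ground_finite.mem_toFinset.1 h1
    have hJi : M.Indep ((A ∩ B : Finset α) : Set α) := by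
      apply indep_of_small hM hJE
      rw [Set.ncard_coe_finset]
      omega
    obtain ⟨e, heC, hei⟩ := hJi.augment hCi (by
      rw [Set.encard_coe_eq_coe_finsetCard, Set.encard_coe_eq_coe_finsetCard]
      exact_mod_cast (by omega : (A ∩ B).card < C.card))
    have he1 : e ∈ C := heC.1
    have he2 : e ∉ A ∩ B := fun h => heC.2 h
    have hcard : (insert e (A ∩ B)).card = rank M := by
      rw [card_insert_of_notMem he2, hJc]
    have hUe := hC he1
    rw [mem_union] at hUe
    rcases hUe with h | h
    · have h1 : insert e (A ∩ B) = A :=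
        Finset.eq_of_subset_of_card_le (insert_subset h inter_subset_left) (by rw [hcard, hAr])
      rw [← coe_insert, h1] at hei
      exact hAd hei
    · have h1 : insert e (A ∩ B) = B :=
        Finset.eq_of_subset_of_card_le (insert_subset h inter_subset_right) (by rw [hcard, hBr])
      rw [← coe_insert, h1] at hei
      exact hBd hei

open Classical in
theorem numIndep_eq (M : Matroid α) [M.Finite] (k : ℕ) :
    numIndep M k = ((powersetCard k M.ground_finite.toFinset).filter
      (fun A : Finset α => M.Indep (A : Set α))).card := by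
  rw [numIndep, ← Set.ncard_coe_finset, ← Set.ncard_image_of_injective _ Finset.coe_injective]
  congr 1
  ext I
  constructor
  · rintro ⟨hI, hIk⟩
    have hIf : I.Finite := M.ground_finite.subset hI.subset_ground
    refine ⟨hIf.toFinset, ?_, hIf.coe_toFinset⟩
    rw [Finset.mem_coe, mem_filter, mem_powersetCard]
    refine ⟨⟨?_, ?_⟩, by rwa [hIf.coe_toFinset]⟩
    · intro x hx
      rw [Set.Finite.mem_toFinset] at hx ⊢
      exact hI.subset_ground hx
    · rw [← hIk, Set.ncard_eq_toFinset_card I hIf]
  · rintro ⟨A, hA, rfl⟩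
    rw [Finset.mem_coe, mem_filter, mem_powersetCard] at hA
    exact ⟨hA.2, by rw [Set.ncard_coe_finset]; exact hA.1.2⟩

theorem rank_spec (M : Matroid α) [M.Finite] : ((rank M : ℕ) : ℕ∞) = M.eRank := by
  rw [rank]
  apply ENat.natCast_toNat
  obtain ⟨B, hB⟩ := M.exists_isBase
  rw [← hB.encard_eq_eRank]
  exact (M.ground_finite.subset hB.subset_ground).encard_lt_top.ne

/-- **Theorem.** All reliability roots of a finite paving matroid lie in the closed unit disk. -/
theorem result {α : Type*} (M : Matroid α) [M.Finite] (hM : IsPaving M) (z : ℂ)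
    (hz : (relPoly M).IsRoot z) : ‖z‖ ≤ 1 := by
  classical
  by_contra hcon
  rw [not_le] at hcon
  set E := M.ground_finite.toFinset with hE
  set r := rank M with hr
  have hEc : M.E.ncard = E.card := Set.ncard_eq_toFinset_card _ _
  obtain ⟨B, hB⟩ := M.exists_isBase
  have hBf : B.Finite := M.ground_finite.subset hB.subset_ground
  have hBE : hBf.toFinset ⊆ E := by
    intro x hx
    rw [Set.Finite.mem_toFinset] at hx
    rw [hE, Set.Finite.mem_toFinset]
    exact hB.subset_ground hx
  have hBr : hBf.toFinset.card = r := by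
    have h1 := hB.encard_eq_eRank
    rw [← rank_spec, hBf.encard_eq_coe_toFinset_card] at h1
    exact_mod_cast h1
  have hmain := main_ne_zero hcon E r (nb M) (sys hM) ⟨hBf.toFinset, hBE, hBr, by
    rw [nb, mem_filter]
    rintro ⟨-, h⟩
    rw [hBf.coe_toFinset] at h
    exact h hB.indep⟩
  apply hmain
  have hrE : r ≤ E.card := by
    rw [← hBr]
    exact card_le_card hBE
  -- evaluate
  have heval : (relPoly M).eval z = ∑ k ∈ range (r + 1), (numIndep M k : ℂ) * z ^ k *
      (1 - z) ^ (E.card - k) := by
    rw [relPoly, Polynomial.eval_finsetSum]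
    refine sum_congr rfl fun k _ => ?_
    rw [hEc]
    simp
  have hk : ∀ k, k < r → numIndep M k = E.card.choose k := by
    intro k hk
    rw [numIndep_eq, ← card_powersetCard, Finset.filter_true_of_mem]
    intro A hA
    rw [mem_powersetCard] at hA
    apply indep_of_small hM
    · intro x hx
      exact M.ground_finite.mem_toFinset.1 (hA.1 (Finset.mem_coe.1 hx))
    · rw [Set.ncard_coe_finset, hA.2]
      exact hk
  have hkr : numIndep M r + (nb M).card = E.card.choose r := by
    rw [numIndep_eq, nb, ← card_powersetCard]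
    exact Finset.card_filter_add_card_filter_not _
  have hpow : ∀ k ∈ range (r + 1), (1 - z) ^ (E.card - k) =
      (1 - z) ^ (E.card - r) * (1 - z) ^ (r - k) := by
    intro k hk
    rw [mem_range] at hk
    rw [← pow_add]
    congr 1
    omega
  have hfac : (relPoly M).eval z = (1 - z) ^ (E.card - r) *
      (U z E.card r - ((nb M).card : ℂ) * z ^ r) := by
    rw [heval, U, sum_range_succ, sum_range_succ _ r, mul_sub, mul_add, mul_sum]
    have h1 : ∀ k ∈ range r, (numIndep M k : ℂ) * z ^ k * (1 - z) ^ (E.card - k) =
        (1 - z) ^ (E.card - r) * ((E.card.choose k : ℂ) * z ^ k * (1 - z) ^ (r - k)) := by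
      intro k hk'
      rw [mem_range] at hk'
      rw [hk k hk', hpow k (mem_range.2 (by omega))]
      ring
    rw [sum_congr rfl h1]
    have h2 : ((numIndep M r : ℕ) : ℂ) = (E.card.choose r : ℂ) - ((nb M).card : ℂ) := by
      rw [← hkr]
      push_cast
      ring
    rw [h2, Nat.sub_self, pow_zero]
    ring
  have hz0 : (relPoly M).eval z = 0 := hz
  rw [hfac] at hz0
  rcases mul_eq_zero.1 hz0 with h | h
  · exfalso
    by_cases h0 : E.card - r = 0
    · rw [h0, pow_zero] at h
      exact one_ne_zero h
    · have h2 : 1 - z = 0 := by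
        by_contra hne
        exact pow_ne_zero _ hne h
      exact q_ne_one hcon (sub_eq_zero.1 h2).symm
  · exact h

end Pool.Agent.Results.MP_1ae31d_co.PavingRoots
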